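import Pool.Agent.W762.AX.Tay

/-!
# Laplace integrals with an amplitude independent of `N`
-/

set_option autoImplicit false

namespace Pool.Agent.W762.AX

open Finset Filter Topology Metric Complex MeasureTheory
open scoped Real

/-- coefficients -/
noncomputable def cc (r : ℝ) (φ h : ℂ → ℂ) (m : ℕ) (s : ℝ) : ℂ :=
  co r (fun z => cexp (s * φ z) * h z) m

/-- integrand of the coefficient of `N ^ (-k)` -/
noncomputable def fk (r : ℝ) (φ h : ℂ → ℂ) (k : ℕ) (t : ℝ) : ℂ :=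
  cc r φ h (2 * k) (t ^ 2) * (t : ℂ) ^ (2 * k)

/-- the coefficient of `N ^ (-k)` -/
noncomputable def AA (r : ℝ) (φ h : ℂ → ℂ) (k : ℕ) : ℂ := ∫ t : ℝ, fk r φ h k t

/-- Gaussian moments -/
noncomputable def JJ (a : ℝ) (K : ℕ) : ℝ := ∫ t : ℝ, Real.exp (-a * t ^ 2) * t ^ (2 * K)

theorem JJ_int {a : ℝ} (ha : 0 < a) (K : ℕ) :
    Integrable fun t : ℝ => Real.exp (-a * t ^ 2) * t ^ (2 * K) := by
  have h1 := integrable_rpow_mul_exp_neg_mul_sq ha (s := ((2 * K : ℕ) : ℝ))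
    (lt_of_lt_of_le (by norm_num) (Nat.cast_nonneg _))
  refine h1.congr (ae_of_all _ fun t => ?_)
  simp only [Real.rpow_natCast]
  ring

theorem JJ_fun_nonneg (a : ℝ) (K : ℕ) (t : ℝ) : 0 ≤ Real.exp (-a * t ^ 2) * t ^ (2 * K) := by
  rw [pow_mul]; positivity

theorem JJ_nonneg (a : ℝ) (K : ℕ) : 0 ≤ JJ a K := integral_nonneg (JJ_fun_nonneg a K)

theorem JJ_ge {a : ℝ} (ha : 0 < a) (K : ℕ) {T : ℝ} (hT : 0 ≤ T) :
    ∫ t in (-T)..T, Real.exp (-a * t ^ 2) * t ^ (2 * K) ≤ JJ a K := by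
  rw [intervalIntegral.integral_of_le (by linarith)]
  exact setIntegral_le_integral (JJ_int ha K) (ae_of_all _ (JJ_fun_nonneg a K))

/-- hypotheses on the phase and the amplitude -/
structure Hyp (r a M : ℝ) (φ h : ℂ → ℂ) : Prop where
  r0 : 0 < r
  a0 : 0 < a
  hφ : DiffContOnCl ℂ φ (ball 0 r)
  hh : DiffContOnCl ℂ h (ball 0 r)
  re : ∀ z, ‖z‖ ≤ r → (φ z).re ≤ -a
  bd : ∀ z, ‖z‖ ≤ r → ‖h z‖ ≤ M

variable {r a M : ℝ} {φ h : ℂ → ℂ}

theorem Hyp.M0 (H : Hyp r a M φ h) : 0 ≤ M :=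
  (norm_nonneg _).trans (H.bd 0 (by rw [norm_zero]; exact H.r0.le))

theorem Hyp.dc (H : Hyp r a M φ h) (s : ℝ) :
    DiffContOnCl ℂ (fun z => cexp (s * φ z) * h z) (ball 0 r) := by
  have h1 : Differentiable ℂ fun w : ℂ => cexp (s * w) :=
    (differentiable_id.const_mul (s : ℂ)).cexp
  exact (h1.comp_diffContOnCl H.hφ).smul H.hh

theorem Hyp.norm_exp (H : Hyp r a M φ h) {s : ℝ} (hs : 0 ≤ s) {z : ℂ} (hz : ‖z‖ ≤ r) :
    ‖cexp (s * φ z)‖ ≤ Real.exp (-a * s) := by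
  rw [Complex.norm_exp, Complex.re_ofReal_mul]
  apply Real.exp_le_exp.2
  have := mul_le_mul_of_nonneg_left (H.re z hz) hs
  linarith

theorem Hyp.norm_F (H : Hyp r a M φ h) {s : ℝ} (hs : 0 ≤ s) {z : ℂ} (hz : ‖z‖ ≤ r) :
    ‖cexp (s * φ z) * h z‖ ≤ M * Real.exp (-a * s) := by
  rw [norm_mul, mul_comm M]
  exact mul_le_mul (H.norm_exp hs hz) (H.bd z hz) (norm_nonneg _) (Real.exp_pos _).le

theorem Hyp.norm_F' (H : Hyp r a M φ h) {s : ℝ} (hs : 0 ≤ s) :
    ∀ z ∈ sphere (0 : ℂ) r, ‖cexp (s * φ z) * h z‖ ≤ M * Real.exp (-a * s) := by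
  intro z hz
  have hz' : ‖z‖ = r := by simpa using hz
  exact H.norm_F hs hz'.le

theorem Hyp.cc_norm (H : Hyp r a M φ h) (m : ℕ) {s : ℝ} (hs : 0 ≤ s) :
    ‖cc r φ h m s‖ ≤ M * Real.exp (-a * s) / r ^ m :=
  co_norm H.r0 (H.norm_F' hs) m

theorem Hyp.cc_cont (H : Hyp r a M φ h) (m : ℕ) : Continuous (cc r φ h m) := by
  have key : ∀ {f : ℂ → ℂ}, DiffContOnCl ℂ f (ball 0 r) → ContinuousOn f (sphere 0 r) := by
    intro f hf
    have := hf.continuousOn
    rw [closure_ball _ H.r0.ne'] at this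
    exact this.mono sphere_subset_closedBall
  exact co_cont H.r0 (key H.hφ) (key H.hh) m

theorem Hyp.fk_cont (H : Hyp r a M φ h) (k : ℕ) : Continuous (fk r φ h k) := by
  unfold fk
  exact ((H.cc_cont (2 * k)).comp (continuous_pow 2)).mul
    ((Complex.continuous_ofReal).pow (2 * k))

theorem Hyp.fk_norm (H : Hyp r a M φ h) (k : ℕ) (t : ℝ) :
    ‖fk r φ h k t‖ ≤ M / r ^ (2 * k) * (Real.exp (-a * t ^ 2) * t ^ (2 * k)) := by
  unfold fk
  rw [norm_mul, norm_pow, Complex.norm_real, Real.norm_eq_abs, pow_mul |t|, sq_abs, ← pow_mul]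
  have h1 := H.cc_norm (2 * k) (sq_nonneg t)
  have h2 : 0 ≤ t ^ (2 * k) := by rw [pow_mul]; positivity
  refine (mul_le_mul_of_nonneg_right h1 h2).trans (le_of_eq ?_)
  ring

theorem Hyp.fk_int (H : Hyp r a M φ h) (k : ℕ) : Integrable (fk r φ h k) :=
  ((JJ_int H.a0 k).const_mul (M / r ^ (2 * k))).mono' (H.fk_cont k).aestronglyMeasurable
    (ae_of_all _ (H.fk_norm k))

theorem Hyp.tail (H : Hyp r a M φ h) {k K : ℕ} (hk : k ≤ K) {T : ℝ} (hT : 0 < T) :
    ‖(∫ t in (-T)..T, fk r φ h k t) - AA r φ h k‖ ≤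
      M / r ^ (2 * k) / T ^ (2 * (K - k)) * JJ a K := by
  have hM := H.M0
  have hr := H.r0
  rw [intervalIntegral.integral_of_le (by linarith)]
  have h1 := integral_add_compl (μ := volume) (s := Set.Ioc (-T) T) measurableSet_Ioc (H.fk_int k)
  have h2 : (∫ t in Set.Ioc (-T) T, fk r φ h k t) - AA r φ h k =
      -∫ t in (Set.Ioc (-T) T)ᶜ, fk r φ h k t := by
    unfold AA
    rw [← h1]; ring
  rw [h2, norm_neg]
  set C := M / r ^ (2 * k) / T ^ (2 * (K - k)) with hC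
  have hC0 : 0 ≤ C := by positivity
  have hg : Integrable fun t : ℝ => C * (Real.exp (-a * t ^ 2) * t ^ (2 * K)) :=
    (JJ_int H.a0 K).const_mul C
  have h3 : ‖∫ t in (Set.Ioc (-T) T)ᶜ, fk r φ h k t‖ ≤
      ∫ t in (Set.Ioc (-T) T)ᶜ, C * (Real.exp (-a * t ^ 2) * t ^ (2 * K)) := by
    refine norm_integral_le_of_norm_le hg.integrableOn ?_
    rw [ae_restrict_iff' measurableSet_Ioc.compl]
    refine ae_of_all _ fun t ht => ?_
    have ht' : T ≤ |t| := by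
      by_contra hcon
      push Not at hcon
      have := abs_lt.1 hcon
      exact ht ⟨this.1, this.2.le⟩
    refine (H.fk_norm k t).trans ?_
    have e1 : t ^ (2 * K) = t ^ (2 * k) * t ^ (2 * (K - k)) := by
      rw [← pow_add]; congr 1; omega
    have e2 : T ^ (2 * (K - k)) ≤ t ^ (2 * (K - k)) := by
      have : t ^ (2 * (K - k)) = |t| ^ (2 * (K - k)) := by
        rw [pow_mul, pow_mul, sq_abs]
      rw [this]
      exact pow_le_pow_left₀ hT.le ht' _
    have e3 : 0 ≤ Real.exp (-a * t ^ 2) * t ^ (2 * k) := JJ_fun_nonneg a k t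
    have e4 : 0 < T ^ (2 * (K - k)) := by positivity
    have e5 : Real.exp (-a * t ^ 2) * t ^ (2 * k) ≤
        Real.exp (-a * t ^ 2) * t ^ (2 * K) / T ^ (2 * (K - k)) := by
      rw [le_div_iff₀ e4, e1, ← mul_assoc]
      exact mul_le_mul_of_nonneg_left e2 e3
    refine (mul_le_mul_of_nonneg_left e5 (show 0 ≤ M / r ^ (2 * k) by positivity)).trans
      (le_of_eq ?_)
    rw [hC]; ring
  refine h3.trans ?_
  refine (setIntegral_le_integral hg (ae_of_all _ fun t =>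
    mul_nonneg hC0 (JJ_fun_nonneg a K t))).trans (le_of_eq ?_)
  rw [integral_const_mul]
  rfl

theorem Hyp.parity (H : Hyp r a M φ h) (ν T : ℝ) (K : ℕ) :
    ∫ t in (-T)..T, ∑ m ∈ range (2 * K), cc r φ h m (t ^ 2) * ((ν * t : ℝ) : ℂ) ^ m =
      ∑ k ∈ range K, ((ν : ℂ) ^ 2) ^ k * ∫ t in (-T)..T, fk r φ h k t := by
  have hc : ∀ m, Continuous fun t : ℝ => cc r φ h m (t ^ 2) * ((ν * t : ℝ) : ℂ) ^ m := fun m =>
    ((H.cc_cont m).comp (continuous_pow 2)).mul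
      ((Complex.continuous_ofReal.comp (continuous_const.mul continuous_id)).pow m)
  induction K with
  | zero => simp
  | succ K ih =>
    have hs : Continuous fun t : ℝ =>
        ∑ m ∈ range (2 * K), cc r φ h m (t ^ 2) * ((ν * t : ℝ) : ℂ) ^ m :=
      continuous_finsetSum _ fun m _ => hc m
    rw [show 2 * (K + 1) = 2 * K + 1 + 1 by ring]
    simp_rw [sum_range_succ _ (2 * K + 1), sum_range_succ _ (2 * K)]
    have h12 : Continuous fun t : ℝ =>
        ∑ m ∈ range (2 * K), cc r φ h m (t ^ 2) * ((ν * t : ℝ) : ℂ) ^ m +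
          cc r φ h (2 * K) (t ^ 2) * ((ν * t : ℝ) : ℂ) ^ (2 * K) := hs.add (hc _)
    rw [intervalIntegral.integral_add (h12.intervalIntegrable _ _)
      ((hc (2 * K + 1)).intervalIntegrable _ _),
      intervalIntegral.integral_add (hs.intervalIntegrable _ _)
      ((hc (2 * K)).intervalIntegrable _ _), ih, sum_range_succ]
    have hodd : ∫ t in (-T)..T, cc r φ h (2 * K + 1) (t ^ 2) * ((ν * t : ℝ) : ℂ) ^ (2 * K + 1)
        = 0 := by
      have h1 := intervalIntegral.integral_comp_neg (a := -T) (b := T)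
        (fun t : ℝ => cc r φ h (2 * K + 1) (t ^ 2) * ((ν * t : ℝ) : ℂ) ^ (2 * K + 1))
      rw [neg_neg] at h1
      have h2 : ∀ t : ℝ, cc r φ h (2 * K + 1) ((-t) ^ 2) * ((ν * -t : ℝ) : ℂ) ^ (2 * K + 1) =
          -(cc r φ h (2 * K + 1) (t ^ 2) * ((ν * t : ℝ) : ℂ) ^ (2 * K + 1)) := by
        intro t
        rw [neg_sq, mul_neg, Complex.ofReal_neg, Odd.neg_pow ⟨K, rfl⟩]
        ring
      simp_rw [h2] at h1
      rw [intervalIntegral.integral_neg] at h1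
      exact self_eq_neg.1 h1.symm
    have heven : ∫ t in (-T)..T, cc r φ h (2 * K) (t ^ 2) * ((ν * t : ℝ) : ℂ) ^ (2 * K) =
        ((ν : ℂ) ^ 2) ^ K * ∫ t in (-T)..T, fk r φ h K t := by
      rw [← intervalIntegral.integral_const_mul]
      congr 1
      funext t
      unfold fk
      rw [Complex.ofReal_mul, mul_pow, ← pow_mul]
      ring
    rw [hodd, heven, add_zero]

/-- the expansion for an amplitude independent of `N` -/
theorem Hyp.main (H : Hyp r a M φ h) {η : ℝ} (hη : 0 < η) (hηr : η ≤ r / 2) (K N : ℕ)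
    (hN : 0 < N) :
    ‖(∫ t in (-(η * √N))..(η * √N), cexp ((t ^ 2 : ℝ) * φ ((t / √N : ℝ) : ℂ)) *
        h ((t / √N : ℝ) : ℂ)) - ∑ k ∈ range K, AA r φ h k / (N : ℂ) ^ k‖ ≤
      (2 * M / r ^ (2 * K) * JJ a K +
        ∑ k ∈ range K, M / r ^ (2 * k) / η ^ (2 * (K - k)) * JJ a K) / (N : ℝ) ^ K := by
  have hM := H.M0
  have hr := H.r0
  have hN' : (0 : ℝ) < N := by exact_mod_cast hN
  have hsq : (0 : ℝ) < √N := Real.sqrt_pos.2 hN'
  have hsq2 : √(N : ℝ) ^ 2 = N := Real.sq_sqrt hN'.le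
  set T : ℝ := η * √N with hT
  have hT0 : 0 < T := by positivity
  set ν : ℝ := (√N)⁻¹ with hν
  have hν0 : 0 < ν := by positivity
  have hν2 : ν ^ 2 = (N : ℝ)⁻¹ := by rw [hν, inv_pow, hsq2]
  have hdiv : ∀ t : ℝ, t / √N = ν * t := fun t => by rw [hν, div_eq_inv_mul]
  have hsmall : ∀ t ∈ Set.uIcc (-T) T, ‖((t / √N : ℝ) : ℂ)‖ ≤ r / 2 := by
    intro t ht
    rw [Set.uIcc_of_le (by linarith)] at ht
    rw [Complex.norm_real, Real.norm_eq_abs, abs_div, abs_of_pos hsq, div_le_iff₀ hsq]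
    have h1 : |t| ≤ T := abs_le.2 ht
    exact h1.trans (by rw [hT]; exact mul_le_mul_of_nonneg_right hηr hsq.le)
  have hcl : ∀ {f : ℂ → ℂ}, DiffContOnCl ℂ f (ball 0 r) → ContinuousOn f (closedBall 0 r) := by
    intro f hf
    have := hf.continuousOn
    rwa [closure_ball _ H.r0.ne'] at this
  have hmaps : Set.MapsTo (fun t : ℝ => ((t / √N : ℝ) : ℂ)) (Set.uIcc (-T) T) (closedBall 0 r) := by
    intro t ht
    rw [mem_closedBall_zero_iff]
    exact (hsmall t ht).trans (by linarith)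
  have hc1 : ContinuousOn (fun t : ℝ => ((t / √N : ℝ) : ℂ)) (Set.uIcc (-T) T) :=
    (Complex.continuous_ofReal.comp (continuous_id.div_const _)).continuousOn
  have hcF : ContinuousOn (fun t : ℝ => cexp ((t ^ 2 : ℝ) * φ ((t / √N : ℝ) : ℂ)) *
      h ((t / √N : ℝ) : ℂ)) (Set.uIcc (-T) T) := by
    refine ContinuousOn.mul ?_ ((hcl H.hh).comp hc1 hmaps)
    refine Complex.continuous_exp.comp_continuousOn ?_
    refine ContinuousOn.mul ?_ ((hcl H.hφ).comp hc1 hmaps)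
    exact (Complex.continuous_ofReal.comp (continuous_pow 2)).continuousOn
  have hcS : Continuous fun t : ℝ =>
      ∑ m ∈ range (2 * K), cc r φ h m (t ^ 2) * ((ν * t : ℝ) : ℂ) ^ m :=
    continuous_finsetSum _ fun m _ => ((H.cc_cont m).comp (continuous_pow 2)).mul
      ((Complex.continuous_ofReal.comp (continuous_const.mul continuous_id)).pow m)
  -- the two pieces
  have hsplit : (∫ t in (-T)..T, cexp ((t ^ 2 : ℝ) * φ ((t / √N : ℝ) : ℂ)) *
        h ((t / √N : ℝ) : ℂ)) - ∑ k ∈ range K, AA r φ h k / (N : ℂ) ^ k =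
      (∫ t in (-T)..T, (cexp ((t ^ 2 : ℝ) * φ ((t / √N : ℝ) : ℂ)) * h ((t / √N : ℝ) : ℂ) -
        ∑ m ∈ range (2 * K), cc r φ h m (t ^ 2) * ((ν * t : ℝ) : ℂ) ^ m)) +
      ∑ k ∈ range K, ((ν : ℂ) ^ 2) ^ k * ((∫ t in (-T)..T, fk r φ h k t) - AA r φ h k) := by
    rw [intervalIntegral.integral_sub hcF.intervalIntegrable (hcS.intervalIntegrable _ _),
      H.parity]
    simp_rw [mul_sub]
    rw [sum_sub_distrib]
    have : ∑ k ∈ range K, AA r φ h k / (N : ℂ) ^ k =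
        ∑ k ∈ range K, ((ν : ℂ) ^ 2) ^ k * AA r φ h k := by
      refine sum_congr rfl fun k _ => ?_
      rw [← Complex.ofReal_pow, hν2, Complex.ofReal_inv, Complex.ofReal_natCast, inv_pow]
      rw [div_eq_mul_inv, mul_comm]
    rw [this]
    ring
  rw [hsplit, add_div]
  refine (norm_add_le _ _).trans (add_le_add ?_ ?_)
  · have hb : ∀ t ∈ Set.Ioc (-T) T, ‖cexp ((t ^ 2 : ℝ) * φ ((t / √N : ℝ) : ℂ)) *
        h ((t / √N : ℝ) : ℂ) - ∑ m ∈ range (2 * K), cc r φ h m (t ^ 2) * ((ν * t : ℝ) : ℂ) ^ m‖ ≤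
        2 * M / r ^ (2 * K) / (N : ℝ) ^ K * (Real.exp (-a * t ^ 2) * t ^ (2 * K)) := by
      intro t ht
      have ht' : t ∈ Set.uIcc (-T) T := by
        rw [Set.uIcc_of_le (by linarith)]
        exact ⟨ht.1.le, ht.2⟩
      have h1 := taylor_norm H.r0 (H.dc (t ^ 2)) (H.norm_F' (sq_nonneg t)) (hsmall t ht') (2 * K)
      rw [hdiv t] at h1 ⊢
      refine h1.trans (le_of_eq ?_)
      rw [Complex.norm_real, Real.norm_eq_abs, div_pow, pow_mul |ν * t|, sq_abs, ← pow_mul, mul_pow,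
        pow_mul ν, hν2, inv_pow]
      field_simp
    have hle := intervalIntegral.norm_integral_le_of_norm_le (μ := volume) (a := -T) (b := T)
      (by linarith) (ae_of_all _ hb)
      (((JJ_int H.a0 K).const_mul (2 * M / r ^ (2 * K) / (N : ℝ) ^ K)).intervalIntegrable)
    refine hle.trans ?_
    rw [intervalIntegral.integral_const_mul]
    refine (mul_le_mul_of_nonneg_left (JJ_ge H.a0 K hT0.le)
      (show 0 ≤ 2 * M / r ^ (2 * K) / (N : ℝ) ^ K by positivity)).trans (le_of_eq ?_)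
    ring
  · refine (norm_sum_le _ _).trans ?_
    rw [sum_div]
    refine sum_le_sum fun k hk => ?_
    have hk' : k ≤ K := (mem_range.1 hk).le
    rw [norm_mul, norm_pow, norm_pow, Complex.norm_real, Real.norm_eq_abs, sq_abs, hν2]
    refine (mul_le_mul_of_nonneg_left (H.tail hk' hT0)
      (show 0 ≤ ((N : ℝ)⁻¹) ^ k by positivity)).trans (le_of_eq ?_)
    have e1 : T ^ (2 * (K - k)) = η ^ (2 * (K - k)) * (N : ℝ) ^ (K - k) := by
      rw [hT, mul_pow, pow_mul (√(N : ℝ)), hsq2]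
    have e2 : (N : ℝ) ^ K = (N : ℝ) ^ k * (N : ℝ) ^ (K - k) := by
      rw [← pow_add]; congr 1; omega
    rw [e1, e2, inv_pow]
    field_simp

end Pool.Agent.W762.AX
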