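import Pool.Agent.W719.AX.Gen
import Pool.Agent.W762.AX.Lap

/-!
# Laplace's method to all orders, uniformly in a parameter (project AX, part AX-LX)
-/

set_option autoImplicit false

namespace Pool.Agent.W762.AX

open Finset Filter Topology Metric Complex MeasureTheory
open Pool.Agent.W719.AX
open scoped Real

/-- the quotient `q u / u ^ 2` -/
noncomputable def ph (q : ℂ → ℂ) : ℂ → ℂ := dslope (dslope q 0) 0

theorem ph_diff {q : ℂ → ℂ} {δ : ℝ} (hδ : 0 < δ) (hq : DifferentiableOn ℂ q (ball 0 δ)) :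
    DifferentiableOn ℂ (ph q) (ball 0 δ) :=
  (Complex.differentiableOn_dslope (isOpen_ball.mem_nhds (mem_ball_self hδ))).2
    ((Complex.differentiableOn_dslope (isOpen_ball.mem_nhds (mem_ball_self hδ))).2 hq)

theorem ph_eq {q : ℂ → ℂ} (h0 : q 0 = 0) (h1 : deriv q 0 = 0) (u : ℂ) : q u = u ^ 2 * ph q u := by
  have e1 := sub_smul_dslope q 0 u
  have e2 := sub_smul_dslope (dslope q 0) 0 u
  rw [h0, sub_zero, sub_zero, smul_eq_mul] at e1
  rw [dslope_same, h1, sub_zero, sub_zero, smul_eq_mul] at e2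
  rw [← e1, ← e2]
  show u * (u * ph q u) = u ^ 2 * ph q u
  ring

theorem ph_lip {q : ℂ → ℂ} {δ B : ℝ} (hδ : 0 < δ) (hq : DifferentiableOn ℂ q (ball 0 δ))
    (hB : ∀ u ∈ ball (0 : ℂ) δ, ‖q u‖ ≤ B) (h0 : q 0 = 0) (h1 : deriv q 0 = 0) {u : ℂ}
    (hu : u ∈ ball (0 : ℂ) δ) : ‖ph q u - ph q 0‖ ≤ 2 * (|B| / δ / δ) / δ * ‖u‖ := by
  have hd1 := (Complex.differentiableOn_dslope (f := q)
    (isOpen_ball.mem_nhds (mem_ball_self hδ))).2 hq
  have b1 : ∀ z ∈ ball (0 : ℂ) δ, ‖dslope q 0 z‖ ≤ |B| / δ := by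
    intro z hz
    refine norm_dslope_le_div_of_mapsTo_ball hq (fun w hw => ?_) hz
    rw [h0, mem_closedBall_zero_iff]
    exact (hB w hw).trans (le_abs_self B)
  have b2 : ∀ z ∈ ball (0 : ℂ) δ, ‖ph q z‖ ≤ |B| / δ / δ := by
    intro z hz
    refine norm_dslope_le_div_of_mapsTo_ball hd1 (fun w hw => ?_) hz
    rw [dslope_same, h1, mem_closedBall_zero_iff]
    exact b1 w hw
  have b3 : dist (ph q u) (ph q 0) ≤ 2 * (|B| / δ / δ) / δ * dist u 0 := by
    refine dist_le_div_mul_dist_of_mapsTo_ball (ph_diff hδ hq) (fun w hw => ?_) hu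
    rw [mem_closedBall, dist_eq_norm]
    have := norm_sub_le (ph q w) (ph q 0)
    linarith [b2 w hw, b2 0 (mem_ball_self hδ)]
  rwa [dist_eq_norm, dist_zero_right] at b3

theorem ph_zero {q : ℂ → ℂ} {δ : ℝ} (hδ : 0 < δ) (hq : DifferentiableOn ℂ q (ball 0 δ))
    (h0 : q 0 = 0) (h1 : deriv q 0 = 0) : deriv (deriv q) 0 = 2 * ph q 0 := by
  have hp := ph_diff hδ hq
  have hfun : q = fun u => u ^ 2 * ph q u := funext (ph_eq h0 h1)
  have hd : ∀ u ∈ ball (0 : ℂ) δ, HasDerivAt (ph q) (deriv (ph q) u) u := fun u hu =>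
    (hp.differentiableAt (isOpen_ball.mem_nhds hu)).hasDerivAt
  have hev : deriv q =ᶠ[𝓝 0] fun u => 2 * u * ph q u + u ^ 2 * deriv (ph q) u := by
    filter_upwards [isOpen_ball.mem_nhds (mem_ball_self (x := (0 : ℂ)) hδ)] with u hu
    have e1 : HasDerivAt (fun u => u ^ 2 * ph q u) (2 * u * ph q u + u ^ 2 * deriv (ph q) u) u := by
      refine ((hasDerivAt_pow 2 u).fun_mul (hd u hu)).congr_deriv ?_
      simp
    rw [← hfun] at e1
    exact e1.deriv
  rw [hev.deriv_eq]
  have hd2 : HasDerivAt (deriv (ph q)) (deriv (deriv (ph q)) 0) 0 :=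
    ((hp.deriv isOpen_ball).differentiableAt (isOpen_ball.mem_nhds (mem_ball_self hδ))).hasDerivAt
  have e2 : HasDerivAt (fun u : ℂ => 2 * u * ph q u + u ^ 2 * deriv (ph q) u)
      ((2 * 1) * ph q 0 + 2 * 0 * deriv (ph q) 0 +
        ((2 * 0 ^ (2 - 1) : ℂ) * deriv (ph q) 0 + 0 ^ 2 * deriv (deriv (ph q)) 0)) 0 := by
    have g1 := ((hasDerivAt_id' (0 : ℂ)).const_mul 2).fun_mul (hd 0 (mem_ball_self hδ))
    have g2 := (hasDerivAt_pow 2 (0 : ℂ)).fun_mul hd2
    refine (g1.fun_add g2).congr_deriv ?_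
    simp
  rw [e2.deriv]
  ring

theorem AA_zero {r a M : ℝ} {φ h : ℂ → ℂ} (H : Hyp r a M φ h) :
    AA r φ h 0 = h 0 * (π / (-φ 0)) ^ (1 / 2 : ℂ) := by
  have hre : 0 < (-φ 0).re := by
    have := H.re 0 (by rw [norm_zero]; exact H.r0.le)
    rw [Complex.neg_re]
    linarith [H.a0]
  have h1 := integral_gaussian_complex hre
  rw [← h1]
  unfold AA
  rw [← integral_const_mul]
  congr 1
  funext t
  unfold fk cc
  rw [mul_zero, pow_zero, mul_one, co_zero H.r0 (H.dc _), neg_neg, Complex.ofReal_pow,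
    mul_comm (φ 0), mul_comm]

theorem lx (hBD : S_UXBD) : S_LX := by
  intro δ B c hδ hc
  set L : ℝ := 2 * (|B| / δ / δ) / δ + 1 with hL
  have hL0 : 0 < L := by positivity
  set r : ℝ := min (δ / 2) (c / (4 * L)) with hr
  have hr0 : 0 < r := lt_min (by positivity) (by positivity)
  have hrδ : r < δ := (min_le_left _ _).trans_lt (by linarith)
  have hrL : L * r ≤ c / 4 := by
    have h1 : r ≤ c / (4 * L) := min_le_right _ _
    have h2 := mul_le_mul_of_nonneg_left h1 hL0.le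
    refine h2.trans (le_of_eq ?_)
    field_simp
  refine ⟨r / 2, by positivity, by linarith, ?_⟩
  intro η hη hηr E S q H h hq hHc hh hUX
  have hcb : closedBall (0 : ℂ) r ⊆ ball 0 δ := closedBall_subset_ball hrδ
  have hdc : ∀ {f : ℂ → ℂ}, DifferentiableOn ℂ f (ball 0 δ) → DiffContOnCl ℂ f (ball 0 r) := by
    intro f hf
    apply DifferentiableOn.diffContOnCl
    rw [closure_ball _ hr0.ne']
    exact hf.mono hcb
  choose M hM using hBD _ H h _ hUX
  have hre : ∀ p ∈ S, ∀ z : ℂ, ‖z‖ ≤ r → (ph (q p) z).re ≤ -(c / 4) := by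
    intro p hp z hz
    obtain ⟨q1, q2, q3, q4, q5⟩ := hq p hp
    have h1 := ph_lip hδ q1 q2 q3 q4 (u := z) (hcb (by rwa [mem_closedBall_zero_iff]))
    have h2 := ph_zero hδ q1 q3 q4
    rw [h2] at q5
    have h3 : (2 * ph (q p) 0).re = 2 * (ph (q p) 0).re := by simp
    rw [h3] at q5
    have h4 : ‖ph (q p) z - ph (q p) 0‖ ≤ c / 4 := by
      refine h1.trans (le_trans ?_ hrL)
      have : 2 * (|B| / δ / δ) / δ ≤ L := by rw [hL]; linarith
      exact mul_le_mul this hz (norm_nonneg _) hL0.le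
    have h5 := (Complex.abs_re_le_norm (ph (q p) z - ph (q p) 0)).trans h4
    rw [Complex.sub_re] at h5
    have h6 := (abs_le.1 h5).2
    linarith
  have hHyp : ∀ p ∈ S, ∀ k, Hyp r (c / 4) (M k) (ph (q p)) (fun u => h k (p, u)) := by
    intro p hp k
    exact ⟨hr0, by positivity, hdc (ph_diff hδ (hq p hp).1), hdc (hh k p hp), hre p hp,
      fun z hz => hM k (p, z) ⟨hp, hcb (by rwa [mem_closedBall_zero_iff])⟩⟩
  refine ⟨fun n p => ∑ k ∈ range (n + 1), AA r (ph (q p)) (fun u => h k (p, u)) (n - k), ?_, ?_⟩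
  · intro K
    obtain ⟨C', hC'⟩ := hUX K
    set C0 : ℕ → ℝ := fun k => 2 * M k / r ^ (2 * (K - k)) * JJ (c / 4) (K - k) +
        ∑ j ∈ range (K - k), M k / r ^ (2 * j) / η ^ (2 * (K - k - j)) * JJ (c / 4) (K - k) with hC0
    refine ⟨C' * JJ (c / 4) 0 + ∑ k ∈ range K, C0 k, ?_⟩
    filter_upwards [hC', hHc, eventually_gt_atTop 0] with N h1 h2 hN p hp
    have hN' : (0 : ℝ) < N := by exact_mod_cast hN
    have hsq : (0 : ℝ) < √N := Real.sqrt_pos.2 hN'
    have hsq2 : √(N : ℝ) ^ 2 = N := Real.sq_sqrt hN'.le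
    set T : ℝ := η * √N with hT
    have hT0 : 0 < T := by positivity
    have hsmall : ∀ t ∈ Set.uIcc (-T) T, ‖((t / √N : ℝ) : ℂ)‖ ≤ r / 2 := by
      intro t ht
      rw [Set.uIcc_of_le (by linarith)] at ht
      rw [Complex.norm_real, Real.norm_eq_abs, abs_div, abs_of_pos hsq, div_le_iff₀ hsq]
      have h1 : |t| ≤ T := abs_le.2 ht
      exact h1.trans (by rw [hT]; exact mul_le_mul_of_nonneg_right hηr hsq.le)
    have hmaps : Set.MapsTo (fun t : ℝ => ((t / √N : ℝ) : ℂ)) (Set.uIcc (-T) T) (ball 0 δ) := by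
      intro t ht
      rw [mem_ball_zero_iff]
      exact (hsmall t ht).trans_lt (by linarith)
    have hc1 : ContinuousOn (fun t : ℝ => ((t / √N : ℝ) : ℂ)) (Set.uIcc (-T) T) :=
      (Complex.continuous_ofReal.comp (continuous_id.div_const _)).continuousOn
    obtain ⟨q1, q2, q3, q4, q5⟩ := hq p hp
    -- the substitution
    have hsub : (√(N : ℝ) : ℂ) * ∫ x in (-η)..η, cexp (N * q p x) * H N (p, x) =
        ∫ t in (-T)..T, cexp ((t ^ 2 : ℝ) * ph (q p) ((t / √N : ℝ) : ℂ)) *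
          H N (p, ((t / √N : ℝ) : ℂ)) := by
      have e1 := intervalIntegral.integral_comp_div (a := -T) (b := T)
        (fun x : ℝ => cexp (N * q p x) * H N (p, x)) hsq.ne'
      have e2 : -T / √N = -η := by rw [hT, neg_div, mul_div_assoc, div_self hsq.ne', mul_one]
      have e3 : T / √N = η := by rw [hT, mul_div_assoc, div_self hsq.ne', mul_one]
      rw [e2, e3] at e1
      rw [show (√(N : ℝ) : ℂ) * ∫ x in (-η)..η, cexp (N * q p x) * H N (p, x) =
        √(N : ℝ) • ∫ x in (-η)..η, cexp (N * q p x) * H N (p, x) from (Complex.real_smul).symm,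
        ← e1]
      congr 1
      funext t
      congr 2
      rw [ph_eq q3 q4, ← mul_assoc]
      congr 1
      have : (N : ℝ) * (t / √N) ^ 2 = t ^ 2 := by
        rw [div_pow, hsq2]; field_simp
      exact_mod_cast this
    rw [hsub]
    set e : ℝ → ℂ := fun t => cexp ((t ^ 2 : ℝ) * ph (q p) ((t / √N : ℝ) : ℂ)) with he
    have hec : ContinuousOn e (Set.uIcc (-T) T) := by
      refine Complex.continuous_exp.comp_continuousOn ?_
      refine ContinuousOn.mul ?_ ((ph_diff hδ q1).continuousOn.comp hc1 hmaps)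
      exact (Complex.continuous_ofReal.comp (continuous_pow 2)).continuousOn
    have hen : ∀ t ∈ Set.uIcc (-T) T, ‖e t‖ ≤ Real.exp (-(c / 4) * t ^ 2) := by
      intro t ht
      exact (hHyp p hp 0).norm_exp (sq_nonneg t) ((hsmall t ht).trans (by linarith))
    have hHcont : ContinuousOn (fun t : ℝ => H N (p, ((t / √N : ℝ) : ℂ))) (Set.uIcc (-T) T) :=
      (h2 p hp).comp hc1 hmaps
    have hhcont : ∀ k, ContinuousOn (fun t : ℝ => h k (p, ((t / √N : ℝ) : ℂ)))
        (Set.uIcc (-T) T) := fun k => (hh k p hp).continuousOn.comp hc1 hmaps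
    have hNc : (N : ℂ) ≠ 0 := by exact_mod_cast hN.ne'
    -- the coefficients
    have hcoef : ∑ n ∈ range K, (∑ k ∈ range (n + 1), AA r (ph (q p)) (fun u => h k (p, u))
        (n - k)) / (N : ℂ) ^ n = ∑ k ∈ range K, ((N : ℂ) ^ k)⁻¹ *
          ∑ j ∈ range (K - k), AA r (ph (q p)) (fun u => h k (p, u)) j / (N : ℂ) ^ j := by
      have e1 := Finset.sum_range_diag_flip K (fun k j => ((N : ℂ) ^ k)⁻¹ *
        (AA r (ph (q p)) (fun u => h k (p, u)) j / (N : ℂ) ^ j))
      simp_rw [mul_sum]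
      rw [← e1]
      refine sum_congr rfl fun n _ => ?_
      rw [sum_div]
      refine sum_congr rfl fun k hk => ?_
      have hkn : k ≤ n := Nat.lt_succ_iff.1 (mem_range.1 hk)
      have : (N : ℂ) ^ n = (N : ℂ) ^ k * (N : ℂ) ^ (n - k) := by
        rw [← pow_add]; congr 1; omega
      rw [this]
      field_simp
    rw [hcoef]
    -- splitting
    have hsplit : (∫ t in (-T)..T, e t * H N (p, ((t / √N : ℝ) : ℂ))) =
        (∫ t in (-T)..T, e t * (H N (p, ((t / √N : ℝ) : ℂ)) -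
          ∑ k ∈ range K, h k (p, ((t / √N : ℝ) : ℂ)) / (N : ℂ) ^ k)) +
        ∑ k ∈ range K, ((N : ℂ) ^ k)⁻¹ * ∫ t in (-T)..T, e t * h k (p, ((t / √N : ℝ) : ℂ)) := by
      have i1 : ∀ k, IntervalIntegrable (fun t => ((N : ℂ) ^ k)⁻¹ *
          (e t * h k (p, ((t / √N : ℝ) : ℂ)))) volume (-T) T := fun k =>
        (continuousOn_const.mul (hec.mul (hhcont k))).intervalIntegrable
      have i2 : IntervalIntegrable (fun t => e t * H N (p, ((t / √N : ℝ) : ℂ))) volume (-T) T :=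
        (hec.mul hHcont).intervalIntegrable
      have e1 : (∑ k ∈ range K, ((N : ℂ) ^ k)⁻¹ *
          ∫ t in (-T)..T, e t * h k (p, ((t / √N : ℝ) : ℂ))) =
          ∫ t in (-T)..T, ∑ k ∈ range K, ((N : ℂ) ^ k)⁻¹ *
            (e t * h k (p, ((t / √N : ℝ) : ℂ))) := by
        rw [intervalIntegral.integral_finsetSum fun k _ => i1 k]
        exact sum_congr rfl fun k _ => (intervalIntegral.integral_const_mul _ _).symm
      have i3 : IntervalIntegrable (fun t => ∑ k ∈ range K, ((N : ℂ) ^ k)⁻¹ *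
            (e t * h k (p, ((t / √N : ℝ) : ℂ)))) volume (-T) T :=
        (continuousOn_finsetSum _ fun k _ =>
          (continuousOn_const.mul (hec.mul (hhcont k)))).intervalIntegrable
      have e2 : (∫ t in (-T)..T, e t * (H N (p, ((t / √N : ℝ) : ℂ)) -
          ∑ k ∈ range K, h k (p, ((t / √N : ℝ) : ℂ)) / (N : ℂ) ^ k)) =
          (∫ t in (-T)..T, e t * H N (p, ((t / √N : ℝ) : ℂ))) -
            ∫ t in (-T)..T, ∑ k ∈ range K, ((N : ℂ) ^ k)⁻¹ *
            (e t * h k (p, ((t / √N : ℝ) : ℂ))) := by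
        rw [← intervalIntegral.integral_sub i2 i3]
        congr 1
        funext t
        rw [mul_sub, mul_sum]
        congr 1
        refine sum_congr rfl fun k _ => ?_
        rw [div_eq_mul_inv]; ring
      rw [e1, e2]; ring
    rw [hsplit, add_sub_assoc, ← sum_sub_distrib, add_div]
    refine (norm_add_le _ _).trans (add_le_add ?_ ?_)
    · -- the error of the amplitude
      have hC'0 : 0 ≤ C' / (N : ℝ) ^ K :=
        (norm_nonneg _).trans (h1 (p, 0) ⟨hp, mem_ball_self hδ⟩)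
      have hb : ∀ t ∈ Set.Ioc (-T) T, ‖e t * (H N (p, ((t / √N : ℝ) : ℂ)) -
          ∑ k ∈ range K, h k (p, ((t / √N : ℝ) : ℂ)) / (N : ℂ) ^ k)‖ ≤
          C' / (N : ℝ) ^ K * (Real.exp (-(c / 4) * t ^ 2) * t ^ (2 * 0)) := by
        intro t ht
        have ht' : t ∈ Set.uIcc (-T) T := by
          rw [Set.uIcc_of_le (by linarith)]
          exact ⟨ht.1.le, ht.2⟩
        rw [norm_mul, mul_zero, pow_zero, mul_one, mul_comm]
        exact mul_le_mul (h1 (p, _) ⟨hp, hmaps ht'⟩) (hen t ht') (norm_nonneg _) hC'0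
      have hle := intervalIntegral.norm_integral_le_of_norm_le (μ := volume) (a := -T) (b := T)
        (by linarith) (ae_of_all _ hb)
        (((JJ_int (show 0 < c / 4 by positivity) 0).const_mul
          (C' / (N : ℝ) ^ K)).intervalIntegrable)
      refine hle.trans ?_
      rw [intervalIntegral.integral_const_mul]
      refine (mul_le_mul_of_nonneg_left (JJ_ge (show 0 < c / 4 by positivity) 0 hT0.le)
        hC'0).trans (le_of_eq ?_)
      ring
    · refine (norm_sum_le _ _).trans ?_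
      rw [sum_div]
      refine sum_le_sum fun k hk => ?_
      have hkK : k < K := mem_range.1 hk
      have hm := (hHyp p hp k).main hη hηr (K - k) N hN
      rw [← mul_sub, norm_mul, norm_inv, norm_pow, Complex.norm_natCast]
      refine (mul_le_mul_of_nonneg_left hm (show 0 ≤ ((N : ℝ) ^ k)⁻¹ by positivity)).trans
        (le_of_eq ?_)
      have : (N : ℝ) ^ K = (N : ℝ) ^ k * (N : ℝ) ^ (K - k) := by
        rw [← pow_add]; congr 1; omega
      rw [this, hC0]
      field_simp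
  · intro p hp
    obtain ⟨q1, q2, q3, q4, q5⟩ := hq p hp
    simp only [zero_add, range_one, sum_singleton, Nat.sub_zero]
    rw [AA_zero (hHyp p hp 0), ph_zero hδ q1 q3 q4]
    congr 2
    have : (2 * π / -(2 * ph (q p) 0) : ℂ) = π / (-ph (q p) 0) := by
      rw [show -(2 * ph (q p) 0) = 2 * (-ph (q p) 0) by ring]
      rw [mul_div_mul_left _ _ two_ne_zero]
    rw [this]

end Pool.Agent.W762.AX
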