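import Mathlib

/-!
# Taylor expansion with Cauchy bounds (helper file for the uniform Laplace method)
-/

set_option autoImplicit false

namespace Pool.Agent.W762.AX

open Finset Filter Topology Metric Complex
open scoped Real

/-- Taylor coefficient as a circle integral -/
noncomputable def co (r : ℝ) (F : ℂ → ℂ) (m : ℕ) : ℂ :=
  (2 * π * I : ℂ)⁻¹ • ∮ z in C(0, r), (z ^ (m + 1))⁻¹ * F z

/-- the remainder -/
noncomputable def rem (r : ℝ) (F : ℂ → ℂ) (n : ℕ) (x : ℂ) : ℂ :=
  (2 * π * I : ℂ)⁻¹ • ∮ z in C(0, r), ((x / z) ^ n * (z - x)⁻¹) * F z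

theorem co_norm {r : ℝ} (hr : 0 < r) {F : ℂ → ℂ} {M : ℝ} (hM : ∀ z ∈ sphere (0 : ℂ) r, ‖F z‖ ≤ M)
    (m : ℕ) : ‖co r F m‖ ≤ M / r ^ m := by
  have h1 : ‖co r F m‖ ≤ r * (M / r ^ (m + 1)) := by
    refine circleIntegral.norm_two_pi_i_inv_smul_integral_le_of_norm_le_const hr.le ?_
    intro z hz
    have hz' : ‖z‖ = r := by simpa using hz
    rw [norm_mul, norm_inv, norm_pow, hz', div_eq_inv_mul]
    exact mul_le_mul_of_nonneg_left (hM z hz) (by positivity)
  refine h1.trans (le_of_eq ?_)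
  rw [pow_succ]
  field_simp

theorem rem_norm {r : ℝ} (hr : 0 < r) {F : ℂ → ℂ} {M : ℝ} (hM : ∀ z ∈ sphere (0 : ℂ) r, ‖F z‖ ≤ M)
    (n : ℕ) {x : ℂ} (hx : ‖x‖ ≤ r / 2) : ‖rem r F n x‖ ≤ 2 * M * (‖x‖ / r) ^ n := by
  have hM0 : 0 ≤ M := (norm_nonneg _).trans (hM r (by simp [abs_of_pos hr]))
  have h1 : ‖rem r F n x‖ ≤ r * (((‖x‖ / r) ^ n * (2 / r)) * M) := by
    refine circleIntegral.norm_two_pi_i_inv_smul_integral_le_of_norm_le_const hr.le ?_
    intro z hz
    have hz' : ‖z‖ = r := by simpa using hz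
    rw [norm_mul, norm_mul, norm_pow, norm_div, norm_inv, hz']
    have h2 : r / 2 ≤ ‖z - x‖ := by
      have := norm_sub_norm_le z x
      linarith
    have h3 : ‖z - x‖⁻¹ ≤ 2 / r := by
      rw [show (2 : ℝ) / r = (r / 2)⁻¹ by rw [inv_div]]
      exact inv_anti₀ (by positivity) h2
    have h4 : (‖x‖ / r) ^ n * ‖z - x‖⁻¹ ≤ (‖x‖ / r) ^ n * (2 / r) :=
      mul_le_mul_of_nonneg_left h3 (by positivity)
    exact mul_le_mul h4 (hM z hz) (norm_nonneg _) (by positivity)
  refine h1.trans (le_of_eq ?_)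
  field_simp

theorem taylor {r : ℝ} (hr : 0 < r) {F : ℂ → ℂ} (hF : DiffContOnCl ℂ F (ball 0 r)) {x : ℂ}
    (hx : ‖x‖ < r) (n : ℕ) : F x = ∑ m ∈ range n, co r F m * x ^ m + rem r F n x := by
  have hFc : ContinuousOn F (sphere 0 r) := by
    have := hF.continuousOn
    rw [closure_ball _ hr.ne'] at this
    exact this.mono sphere_subset_closedBall
  have hz0 : ∀ z ∈ sphere (0 : ℂ) r, z ≠ 0 := by
    rintro z hz rfl
    have : ‖(0 : ℂ)‖ = r := by simpa using hz
    rw [norm_zero] at this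
    exact hr.ne this
  have hzx : ∀ z ∈ sphere (0 : ℂ) r, z - x ≠ 0 := by
    intro z hz h
    have hz' : ‖z‖ = r := by simpa using hz
    rw [sub_eq_zero] at h
    rw [h] at hz'
    exact hx.ne hz'
  induction n with
  | zero =>
    have h1 := hF.two_pi_i_inv_smul_circleIntegral_sub_inv_smul (w := x)
      (by simpa using hx)
    rw [range_zero, sum_empty, zero_add]
    unfold rem
    rw [← h1]
    simp
  | succ n ih =>
    rw [ih, sum_range_succ, add_assoc]
    congr 1
    have h3 : co r F n * x ^ n =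
        (2 * π * I : ℂ)⁻¹ • ∮ z in C(0, r), x ^ n * ((z ^ (n + 1))⁻¹ * F z) := by
      unfold co
      rw [circleIntegral.integral_const_mul, smul_eq_mul, smul_eq_mul]
      ring
    rw [← sub_eq_iff_eq_add, h3]
    unfold rem
    rw [← smul_sub, ← circleIntegral.integral_sub]
    · congr 1
      refine circleIntegral.integral_congr hr.le fun z hz => ?_
      have h1 := hz0 z hz
      have h2 := hzx z hz
      have h4 : z ^ n ≠ 0 := pow_ne_zero n h1
      have h5 : (x / z) ^ n * (z - x)⁻¹ - (x / z) ^ (n + 1) * (z - x)⁻¹ =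
          x ^ n * (z ^ (n + 1))⁻¹ := by
        rw [div_pow, div_pow, pow_succ x n, pow_succ z n]
        generalize z ^ n = w at h4
        generalize x ^ n = y
        field_simp
      rw [← sub_mul, h5, mul_assoc]
    · refine ContinuousOn.circleIntegrable hr.le ?_
      refine (ContinuousOn.mul ?_ ?_).mul hFc
      · exact (continuousOn_const.div continuousOn_id hz0).pow n
      · exact (continuousOn_id.sub continuousOn_const).inv₀ hzx
    · refine ContinuousOn.circleIntegrable hr.le ?_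
      refine (ContinuousOn.mul ?_ ?_).mul hFc
      · exact (continuousOn_const.div continuousOn_id hz0).pow (n + 1)
      · exact (continuousOn_id.sub continuousOn_const).inv₀ hzx

theorem taylor_norm {r : ℝ} (hr : 0 < r) {F : ℂ → ℂ} (hF : DiffContOnCl ℂ F (ball 0 r)) {M : ℝ}
    (hM : ∀ z ∈ sphere (0 : ℂ) r, ‖F z‖ ≤ M) {x : ℂ} (hx : ‖x‖ ≤ r / 2) (n : ℕ) :
    ‖F x - ∑ m ∈ range n, co r F m * x ^ m‖ ≤ 2 * M * (‖x‖ / r) ^ n := by
  have h1 : F x - ∑ m ∈ range n, co r F m * x ^ m = rem r F n x := by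
    have := taylor hr hF (lt_of_le_of_lt hx (by linarith)) n
    rw [sub_eq_iff_eq_add']
    exact this
  rw [h1]
  exact rem_norm hr hM n hx

/-- the constant coefficient -/
theorem co_zero {r : ℝ} (hr : 0 < r) {F : ℂ → ℂ} (hF : DiffContOnCl ℂ F (ball 0 r)) :
    co r F 0 = F 0 := by
  have h1 := hF.two_pi_i_inv_smul_circleIntegral_sub_inv_smul (w := 0) (by simpa using hr)
  rw [← h1]
  unfold co
  simp

/-- continuity of the coefficients in a parameter -/
theorem co_cont {r : ℝ} (hr : 0 < r) {φ h : ℂ → ℂ} (hφ : ContinuousOn φ (sphere 0 r))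
    (hh : ContinuousOn h (sphere 0 r)) (m : ℕ) :
    Continuous fun s : ℝ => co r (fun z => cexp (s * φ z) * h z) m := by
  show Continuous fun s : ℝ => (2 * π * I : ℂ)⁻¹ * ∫ θ in (0 : ℝ)..2 * π,
    deriv (circleMap 0 r) θ • ((circleMap 0 r θ ^ (m + 1))⁻¹ *
      (cexp (s * φ (circleMap 0 r θ)) * h (circleMap 0 r θ)))
  refine continuous_const.mul ?_
  have hmap : ∀ θ : ℝ, circleMap 0 r θ ∈ sphere (0 : ℂ) r := fun θ =>
    circleMap_mem_sphere 0 hr.le θ
  have hcφ : Continuous fun θ : ℝ => φ (circleMap 0 r θ) :=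
    hφ.comp_continuous (continuous_circleMap 0 r) hmap
  have hch : Continuous fun θ : ℝ => h (circleMap 0 r θ) :=
    hh.comp_continuous (continuous_circleMap 0 r) hmap
  have hc1 : Continuous fun θ : ℝ => circleMap 0 r θ := continuous_circleMap 0 r
  have hc0 : ∀ θ : ℝ, circleMap 0 r θ ≠ 0 := fun θ => circleMap_ne_center hr.ne'
  refine intervalIntegral.continuous_parametric_intervalIntegral_of_continuous' ?_ _ _
  simp only [Function.uncurry_def, deriv_circleMap, smul_eq_mul]
  refine Continuous.mul ((hc1.comp continuous_snd).mul continuous_const) ?_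
  refine Continuous.mul ?_ (Continuous.mul ?_ (hch.comp continuous_snd))
  · exact ((hc1.comp continuous_snd).pow (m + 1)).inv₀ fun p => pow_ne_zero _ (hc0 _)
  · exact Complex.continuous_exp.comp ((Complex.continuous_ofReal.comp continuous_fst).mul
      (hcφ.comp continuous_snd))

end Pool.Agent.W762.AX
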